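import Mathlib
import Pool.Agent.TH115.GD.Defs
import Pool.Agent.TH115.ID.Defs
import Pool.Agent.R939.EI.Tw1
import Pool.Agent.R939.HI.Fix
import Pool.Agent.R939.PP.Mon

/-!
# The Tate conjecture at 2 for almost all quadratic twists of a given elliptic curve

Let `k` be a number field, `k'` an algebraic closure, `K = k(t)`, `F = k'(t)`, and let
`E : y² = x (x² + a x + b)` be an elliptic curve over `K` with a rational point of order two, `a`, `b`
polynomials. `TateAtTwo` says that all the classes in `V₂ Sel(E / F)` which are fixed by the Galois
group of `k` come from `E(K)`: the Tate conjecture for divisors at the prime 2 on the elliptic surface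
over the projective line with generic fibre `E`.

Theorem. Let `b` and `a² - 4 b` satisfy the condition `NotNorm` (not a constant times a square or times
a norm of a polynomial over a quadratic extension of `k`) and let `OnlyTrivial` hold for `(a, b)` and
for `(-2 a, a² - 4 b)`, the curve isogenous to `E`; all this holds for example if `b` and `a² - 4 b` are
irreducible of odd degree. Fix degrees `n₁, ..., n_u ≥ 1` and let `D₁, ..., D_u` of degree at most `n_l`
run through the polynomials whose coefficients are integers of `k` with coordinates between `-H` and
`H`. Then for all of them, with the exception of a proportion which tends to zero if `H` tends to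
infinity, the following holds with `D = D₁ ⋯ D_u` for all the constants `c ∈ k*` and all the polynomials
`h` of odd degree such that the prime divisors of `b (a² - 4 b)` remain prime after `t ↦ h(t)` (a
condition on `E` and `h`, not on `D`): if `h` is monic and its coefficients are integers of `k`, then the
Tate conjecture at 2 holds for the base change by `h` of the quadratic twist of `E` by `c D`, that is, for
`y² = x (x² + c a(h) D(h) x + c² b(h) D(h)²)`. For the other `h` the same holds if also the prime
divisors of `D` remain prime after `t ↦ h(t)`.

So for almost all twists the Tate conjecture at 2 holds for the base changes by all the monic integral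
polynomials of odd degree which are good for `E` at the same time, for example for all `t ↦ tᵐ` with
`m` prime to a number which depends only on `E` (`Pool.Agent.R939.KM.Km2`), and all the polynomials
composed of such ones.

Proof. By the criterion of `Pool.Agent.R939.EI.Tw1` this holds if `b` and `a² - 4 b` are not squares
modulo the primes which divide `D`, and the primes which divide `b (a² - 4 b) D` remain prime.

For the first condition let `f` be one of the two. One has to show that for almost all `D_l`
the value of `f` at a root of `D_l` is not a square in the field generated by it
(`Pool.Agent.R939.HI.Fix`). By the density transfer of `Pool.Agent.W275.UB` otherwise this happens for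
a generic `D_l`, and one can specialize this to a `p`-adic field with a given embedding of `k` and with
`D_l` near a given polynomial (`Pool.Agent.R939.HI.Lmk2`, `Pool.Agent.R939.HI.RootsQ`). Choose the
embedding such that `f` has a root `ρ` of odd order (`Pool.Agent.R939.HI.Padic`) and `D_l` near
`(t - ρ)ⁿ + p`; then the value of `f` at the roots of `D_l` has odd valuation.

For the second condition: almost every irreducible `D_l` remains irreducible after the substitution of
any monic integral polynomial (`Pool.Agent.R939.PP.Mon`). Suppose that a prime ideal `P` divides the
leading coefficient of `D_l` exactly once and does not divide `D_l(0)`. If `D_l(h)` is a product of two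
polynomials of positive degree, then by the lemma of Gauss one of the two has a root `x` which is
integral at `P`; so `h(x)`, a root of `D_l`, is integral at `P`, a contradiction
(`Pool.Agent.R939.PP.Star`). For almost all pairs of integers of `k` there is a prime ideal which divides
the first one exactly once and does not divide the second one (`Pool.Agent.R939.PP.Sq2`). This is shown
by counting: the number of elements of an ideal in a box is bounded with a packing argument
(`Pool.Agent.R939.PP.Sq`), uniformly for ideals of all norms.
-/

namespace Pool.Agent.Results.MP_89bcae_ag.AlmostAllTwists

open Polynomial NumberField Pool.Agent.TH115.GD Pool.Agent.R939.EI Pool.Agent.R939.PP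

theorem result {k k' K F : Type} [Field k] [NumberField k] [Field k'] [Algebra k k'] [Field K]
    [Algebra k[X] K] [Field F] [Algebra k'[X] F] [IsFractionRing k'[X] F] [Algebra K F]
    (hT : IsTower k k' K F) {J : Type} [Fintype J] (B : Module.Basis J ℤ (𝓞 k)) {a b : k[X]}
    (hNb : NotNorm b) (hNd : NotNorm (a ^ 2 - 4 * b)) (hO : OnlyTrivial a b)
    (hO' : OnlyTrivial (-2 * a) (a ^ 2 - 4 * b)) {u : ℕ} (n : Fin u → ℕ) (hn : ∀ l, 1 ≤ n l)
    {η : ℝ} (hη : 0 < η) :
    ∃ H0 : ℕ, ∀ H : ℕ, H0 ≤ H →
      (({x : (l : Fin u) → Fin (n l + 1) → 𝓞 k | (∀ l j t, |B.repr (x l j) t| ≤ (H : ℤ)) ∧
        ¬ TateTM k' K F a b (∏ l, polA fun j => algebraMap (𝓞 k) k (x l j))}.ncard : ℕ) : ℝ) ≤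
        η * (2 * H + 1) ^ (Fintype.card J * ∑ l, (n l + 1)) :=
  mon_twists hT B hNb hNd hO hO' hn hη

end Pool.Agent.Results.MP_89bcae_ag.AlmostAllTwists
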