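import Mathlib
import Pool.Agent.R932.BrC
import Pool.Agent.Y142.ZI.Top
import Pool.Agent.Y708.ZO.Tan
import Pool.Agent.Y497.ZO.LogPow
import Pool.Agent.Y96.ZO.Spec
import Pool.Agent.Y405.ZO.Val
import Pool.Agent.Y405.ZO.Frob
import Pool.Agent.Y815.ZO.App
import Pool.Agent.Y394.ZO.Dens

/-!
# No transcendental Brauer classes of order `ℓ` over all fields of bounded degree, for 100 percent of
the primes `ℓ`

Let `k` be a field which is finitely generated over `ℚ`, `X` a smooth projective surface over `k`,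
`T_ℓ` the transcendental part of `H^2(X̄, ℤ_ℓ(1))` (the orthogonal complement of `NS(X̄)`) and `N` its
rank, which does not depend on `ℓ`. The Galois group `G = Gal(k̄/k)` acts on `T_ℓ` and preserves the
intersection form, which is unimodular for almost all `ℓ`, and for almost all `ℓ` we have
`Br(X̄)[ℓ] = T_ℓ / ℓ` and `T_ℓ ⊗ ℚ_ℓ = V_ℓ Br(X̄)` as representations of `G`. Let `K` be a number field and
`s : G_K → G` the homomorphism given by a closed point of the generic fibre of a model of `X` (if `k` is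
a number field, then `K = k` and `s` is the identity). At the places `v` of `K` of good reduction
(`v ∉ S`) the characteristic polynomial `P_v` of the geometric Frobenius on `T_ℓ` has rational
coefficients and does not depend on `ℓ` (Deligne).

Let `N` be odd. Suppose that for ONE place `v₀ ∉ S` we have `P_{v₀} = (X - 1) Q₀`, where no complex
root of `Q₀` is a root of unity and `x y ≠ z` for all complex roots `x`, `y`, `z` of `Q₀`.

**Theorem.** Suppose that
(A) for ONE prime `ℓ` not divisible by `v₀` no nonzero subquotient of `T_ℓ ⊗ ℚ_ℓ` is fixed by an open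
subgroup of `G_K` (so the Tate conjecture holds at `ℓ`), or
(B) there is a second place `v₁ ∉ S` such that `P_{v₁} = (X - 1) Q₁`, no root of `Q₁` is a root of
unity, and the rational number `Q₀(1) Q₀(-1) Q₁(1) Q₁(-1)` is not a square.
Then for every `d`, for all primes `ℓ` outside a set of natural density zero, no nonzero subquotient of
`T_ℓ / ℓ` is fixed by a subgroup of `G` of index at most `d`.

In particular `Br(X̄)[ℓ]^{G_{k'}} = 0` for all extensions `k'` of `k` of degree at most `d`, hence all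
invariants of `G_{k'}` in `H^2(X̄, μ_ℓ)` come from `NS(X̄) ⊗ 𝔽_ℓ`, and `(V_ℓ Br(X̄))^{G_{k'}} = 0`: the Tate
conjecture for divisors holds for `X` over `k'` with `𝔽_ℓ`-coefficients as well as with
`ℚ_ℓ`-coefficients, for 100 percent of the primes `ℓ`, uniformly in `k'`.

The known zero-one law (a starting result) is the statement for `V_ℓ Br(X̄)`. It does not give
information modulo `ℓ`: the finite group `Br(X̄)[ℓ^∞]^{G_k}` could be nonzero for all `ℓ`. (For one
surface the finiteness of `Br(X̄)^{G_k}` is known for K3 surfaces and abelian surfaces (Skorobogatov,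
Zarhin); here nothing is assumed about `X` besides the conditions on Frobenius polynomials, and
the subquotients and the uniformity in `k'` are included.)

Idea of the proof. If `T_ℓ / ℓ` has a nonzero subquotient which is fixed by a subgroup of index at most
`d`, then the `d!`-th powers of the Frobenius elements at `v₀` and at any place `v` of the same kind
act trivially on it. For `ℓ` large `Q₀` and `Q_v` modulo `ℓ` are prime to `X^{d!} - 1`, so the eigenvectors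
of the two elements for the eigenvalue `1` span the same line in the subquotient, and their norms
agree modulo squares. By the formula for the discriminant of an isometry the number
`r_v = Q₀(1) Q₀(-1) Q_v(1) Q_v(-1)` is a square modulo `ℓ`, hence in `ℚ_ℓ`. On the other hand by the method of
the zero-one law infinitely many primes ramify in fields `ℚ(√r_v)` (here the condition (A) or (B) is
used, for one `ℓ`), so the set of the primes `ℓ` which split in all these fields has density zero.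
-/

set_option autoImplicit false

namespace Pool.Agent.Results.MP_89bcae_ag.BrauerTorsionDensityOne

open Matrix Polynomial Filter Topology NumberField IsDedekindDomain

/-- the absolute Galois group of `K`, with its profinite (Krull) topology -/
abbrev AbsoluteGaloisGroup (K : Type) [Field K] : Type := Gal(AlgebraicClosure K/K)

/-- `σ` is an (arithmetic) Frobenius element at the prime `v` of the number field `K`: for some prime
`Q` of the algebraic closure above `v` it acts on the residue field as `x ↦ x ^ N(v)` -/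
def IsFrobenius {K : Type} [Field K] [NumberField K] (v : HeightOneSpectrum (𝓞 K))
    (σ : AbsoluteGaloisGroup K) : Prop :=
  ∃ Q : Ideal (𝓞 (AlgebraicClosure K)), Q.IsMaximal ∧
    Q.comap (algebraMap (𝓞 K) (𝓞 (AlgebraicClosure K))) = v.asIdeal ∧
    ∀ x : 𝓞 (AlgebraicClosure K), σ • x - x ^ Ideal.absNorm v.asIdeal ∈ Q

/-- `β` is a representation of the group `G` on the lattice `ℤ_ℓ ^ N` which preserves the
nondegenerate symmetric form with the matrix `B`, it is continuous on `G_K` (along `s`), and for all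
`v ∉ S` which are prime to `ℓ` the characteristic polynomial of (the image under `s` of) the geometric
Frobenius elements `σ⁻¹` (`σ` arithmetic) at `v` is `P v` -/
def IsLatticeSystem (K : Type) [Field K] [NumberField K] {G : Type} [Group G]
    (s : AbsoluteGaloisGroup K →* G) (N : ℕ)
    (S : Set (HeightOneSpectrum (𝓞 K))) (P : HeightOneSpectrum (𝓞 K) → ℚ[X]) (ℓ : ℕ)
    [Fact ℓ.Prime] (β : G →* Matrix (Fin N) (Fin N) ℤ_[ℓ]) (B : Matrix (Fin N) (Fin N) ℤ_[ℓ]) :
    Prop :=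
  Continuous (fun σ : AbsoluteGaloisGroup K => β (s σ)) ∧ Bᵀ = B ∧ B.det ≠ 0 ∧
    (∀ g, (β g)ᵀ * B * β g = B) ∧
    ∀ v ∉ S, (ℓ : 𝓞 K) ∉ v.asIdeal → ∀ σ : AbsoluteGaloisGroup K, IsFrobenius v σ →
      (β (s σ⁻¹)).charpoly.map (algebraMap ℤ_[ℓ] ℚ_[ℓ]) = (P v).map (algebraMap ℚ ℚ_[ℓ])

/-- `P v = (X - 1) Q`, and no complex root of `Q` is a root of unity -/
def IsOrdinaryPlace {K : Type} [Field K] [NumberField K]
    (S : Set (HeightOneSpectrum (𝓞 K))) (P : HeightOneSpectrum (𝓞 K) → ℚ[X])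
    (v : HeightOneSpectrum (𝓞 K)) (Q : ℚ[X]) : Prop :=
  v ∉ S ∧ P v = (X - 1) * Q ∧ ∀ n : ℕ, 0 < n → ∀ x : ℂ, aeval x Q = 0 → x ^ n ≠ 1

/-- there are subspaces `W' < W` of `ℚ_ℓ ^ N` such that an open subgroup of `G_K` acts trivially (along
`s` and `β`) on `W / W'` -/
def HasTateSubquotient {K : Type} [Field K] {G : Type} [Group G]
    (s : AbsoluteGaloisGroup K →* G) {N : ℕ} (ℓ : ℕ) [Fact ℓ.Prime]
    (β : G →* Matrix (Fin N) (Fin N) ℤ_[ℓ]) : Prop :=
  ∃ (U : Subgroup (AbsoluteGaloisGroup K)) (W' W : Submodule ℚ_[ℓ] (Fin N → ℚ_[ℓ])),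
    IsOpen (U : Set (AbsoluteGaloisGroup K)) ∧ W' < W ∧
      ∀ σ ∈ U, ∀ w ∈ W, (β (s σ)).map (algebraMap ℤ_[ℓ] ℚ_[ℓ]) *ᵥ w - w ∈ W'

/-- **Tate classes modulo `ℓ` over a field of degree at most `d`**: there are subspaces `W' < W` of
`𝔽_ℓ ^ N` such that a subgroup `U` of `G` of (finite) index at most `d` acts trivially on `W / W'` (for
instance `W' = 0` and `W` generated by a vector which is fixed by `U`) -/
def HasTateSubquotientMod {G : Type} [Group G] {N : ℕ} (ℓ d : ℕ) [Fact ℓ.Prime]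
    (β : G →* Matrix (Fin N) (Fin N) ℤ_[ℓ]) : Prop :=
  ∃ (U : Subgroup G) (W' W : Submodule (ZMod ℓ) (Fin N → ZMod ℓ)), U.index ≠ 0 ∧ U.index ≤ d ∧
    W' < W ∧ ∀ σ ∈ U, ∀ w ∈ W, (β σ).map (PadicInt.toZMod : ℤ_[ℓ] →+* ZMod ℓ) *ᵥ w - w ∈ W'

/-- the set `A` of prime numbers has natural density zero -/
def HasDensityZero (A : Set ℕ) : Prop :=
  Tendsto (fun n : ℕ => (Nat.card {ℓ : ℕ // ℓ ≤ n ∧ ℓ ∈ A} : ℝ) / (Nat.primeCounting n : ℝ))
    atTop (𝓝 0)

/-- **No transcendental Brauer classes of order `ℓ` over the extensions of degree at most `d`, for 100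
percent of the primes `ℓ`.** -/
theorem result (K : Type) [Field K] [NumberField K] (G : Type) [Group G]
    (s : AbsoluteGaloisGroup K →* G) (N : ℕ) (hN : Odd N)
    (S : Set (HeightOneSpectrum (𝓞 K))) (hS : S.Finite) (P : HeightOneSpectrum (𝓞 K) → ℚ[X])
    (β : ∀ (ℓ : ℕ) [Fact ℓ.Prime], G →* Matrix (Fin N) (Fin N) ℤ_[ℓ])
    (B : ∀ (ℓ : ℕ) [Fact ℓ.Prime], Matrix (Fin N) (Fin N) ℤ_[ℓ])
    (hβ : ∀ (ℓ : ℕ) [Fact ℓ.Prime], IsLatticeSystem K s N S P ℓ (β ℓ) (B ℓ))
    (hB : ∃ b : ℕ, ∀ (ℓ : ℕ) [Fact ℓ.Prime], b < ℓ → IsUnit (B ℓ).det)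
    (v₀ : HeightOneSpectrum (𝓞 K)) (Q₀ : ℚ[X]) (hv₀ : IsOrdinaryPlace S P v₀ Q₀)
    (hxyz : ∀ x y z : ℂ, aeval x Q₀ = 0 → aeval y Q₀ = 0 → aeval z Q₀ = 0 → x * y ≠ z)
    (h : (∃ (ℓ : ℕ) (_ : Fact ℓ.Prime), (ℓ : 𝓞 K) ∉ v₀.asIdeal ∧
        ¬ HasTateSubquotient s ℓ (β ℓ)) ∨
      ∃ (v₁ : HeightOneSpectrum (𝓞 K)) (Q₁ : ℚ[X]), IsOrdinaryPlace S P v₁ Q₁ ∧
        ¬ IsSquare (Q₀.eval 1 * Q₀.eval (-1) * (Q₁.eval 1 * Q₁.eval (-1)))) (d : ℕ) :
    HasDensityZero {ℓ | ∃ _ : Fact ℓ.Prime,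
      HasTateSubquotient s ℓ (β ℓ) ∨ HasTateSubquotientMod ℓ d (β ℓ)} := by
  have hALG : Y142.ZO.S_ALG := Y142.ZO.alg_main
  have hISO : Y142.ZO.S_ISO := Y337.ZO.iso_t
  have hLINE : Y142.ZO.S_LINE := Y337.ZO.line_t
  have hTAN : Y142.ZO.S_TAN := Y708.ZO.t
  have hLOG : Y142.ZO.S_LOG := Y497.ZO.log
  have hEXP : Y142.ZO.S_EXP := Y497.ZO.exp
  have hPOW : Y142.ZO.S_POW := Y497.ZO.pow
  have hSPEC : Y142.ZO.S_SPEC := Y96.ZO.t
  have hAPP : Y142.ZO.S_APP := Y815.ZO.t Y337.ZO.det_t Y337.ZO.qz_t hLOG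
  have hFROB : Y142.ZO.S_FROB := Y405.ZO.t
  have hBAD : Y142.ZO.S_BAD := Y458.ZO.bad hISO hLINE
  have hVAL : Y142.ZO.S_VAL := Y405.ZO.t1
  have hVAL2 : Y142.ZO.S_VAL2 := Y405.ZO.t2
  have hDENS : Y142.ZO.S_DENS := Y394.ZO.t1
  have hINF : Y142.ZO.S_INF := Y394.ZO.t2
  have hg₀ : Y142.ZO.GoodPlace S P v₀ Q₀ :=
    ⟨hv₀.1, hv₀.2.1, fun n hn => Y142.ZO.coprime_of_roots hv₀.2.2 n hn⟩
  have hsys : ∀ (ℓ : ℕ) [Fact ℓ.Prime],
      Pool.Agent.R932.IntegralSys K N ℓ s (β ℓ) (B ℓ) S P := hβ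
  have hsys' : ∀ (ℓ : ℕ) [Fact ℓ.Prime], Y142.ZO.Orthogonal K N ℓ
      (Pool.Agent.R932.genRep ℓ ((β ℓ).comp s)) (Pool.Agent.R932.genM ℓ (B ℓ)) S P :=
    fun ℓ _ => Pool.Agent.R932.orthogonal_of (hsys ℓ)
  have hunion : ∀ A A' : Set ℕ, Y142.ZO.DensityZero A → Y142.ZO.DensityZero A' →
      HasDensityZero (A ∪ A') := fun A A' h1 h2 => Y142.ZI.DensityZero.union h1 h2
  have hset : {ℓ | ∃ _ : Fact ℓ.Prime,
      HasTateSubquotient s ℓ (β ℓ) ∨ HasTateSubquotientMod ℓ d (β ℓ)} =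
      Y142.ZO.TateSet (fun ℓ _ => Pool.Agent.R932.genRep ℓ ((β ℓ).comp s)) ∪
        {ℓ | ∃ _ : Fact ℓ.Prime, Pool.Agent.R932.TateMod ℓ d (β ℓ)} := by
    ext ℓ
    constructor
    · rintro ⟨hp, h1 | h1⟩
      · exact Or.inl ⟨hp, h1⟩
      · exact Or.inr ⟨hp, h1⟩
    · rintro (⟨hp, h1⟩ | ⟨hp, h1⟩)
      · exact ⟨hp, Or.inl h1⟩
      · exact ⟨hp, Or.inr h1⟩
  rw [hset]
  rcases h with ⟨ℓ, hp, hℓ, hgood⟩ | ⟨v₁, Q₁, hv₁, hsq⟩
  · refine hunion _ _ ?_ ?_
    · rcases Y142.ZO.zero_one hALG hISO hLINE hTAN hLOG hEXP hPOW hSPEC hAPP hFROB hBAD hVAL hVAL2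
        hDENS hINF hN hS hg₀ hxyz (fun ℓ _ => Pool.Agent.R932.genRep ℓ ((β ℓ).comp s))
        (fun ℓ _ => Pool.Agent.R932.genM ℓ (B ℓ)) hsys' with h1 | h1
      · exact absurd (h1 ℓ hℓ) hgood
      · exact h1
    · exact Pool.Agent.R932.mod_zero_one hALG hISO hLINE hTAN hLOG hEXP hPOW hSPEC hAPP hFROB hBAD
        hVAL hVAL2 hDENS hINF hN hS hg₀ hxyz β B hsys hB ℓ hℓ hgood d
  · have hg₁ : Y142.ZO.GoodPlace S P v₁ Q₁ :=
      ⟨hv₁.1, hv₁.2.1, fun n hn => Y142.ZO.coprime_of_roots hv₁.2.2 n hn⟩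
    refine hunion _ _ ?_ ?_
    · exact Y142.ZO.density_zero hALG hISO hLINE hTAN hLOG hEXP hPOW hSPEC hAPP hFROB hBAD hVAL
        hDENS hINF hN hS hg₀ hxyz hg₁ hsq (fun ℓ _ => Pool.Agent.R932.genRep ℓ ((β ℓ).comp s))
        (fun ℓ _ => Pool.Agent.R932.genM ℓ (B ℓ)) hsys'
    · exact Pool.Agent.R932.mod_density hALG hISO hLINE hTAN hLOG hEXP hPOW hSPEC hAPP hFROB hBAD
        hVAL hDENS hINF hN hS hg₀ hxyz hg₁ hsq β B hsys hB d

end Pool.Agent.Results.MP_89bcae_ag.BrauerTorsionDensityOne
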