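import Mathlib
import Pool.Agent.TH115.GD.Defs
import Pool.Agent.TH115.ID.Defs
import Pool.Agent.R939.EI.Crit

/-!
# The Tate conjecture at 2 for elliptic surfaces with a section of order two: descent over `k(t)`

Let `k` be a field of characteristic different from 2 (for example finitely generated over its
prime field), `k'` a separable closure, `K = k(t)`, `F = k'(t)`, and

`E : y² = x (x² + a x + b)`,  `E' : y² = x (x² - 2 a x + a² - 4 b)`

with polynomials `a`, `b` over `k`. Every elliptic curve over `K` with a rational point of order two
has such an equation. `TateAtTwo` says that all the classes in `V₂ Sel(E / F)` which are fixed by the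
Galois group of `k` come from `E(K)`; as `Br(X ⊗ k') = Ш(E / F)` up to `p`-torsion (Grothendieck),
this is the Tate conjecture for divisors at the prime 2 on the elliptic surface `X` over the
projective line with generic fibre `E`.

A class which is fixed by the Galois group of `k` comes from a class over `K`
(`Pool.Agent.R939.EI.Lift`), not only from a compatible system of classes over `F`. So its first
layer for the 2-isogeny `E → E'` gives a divisor `A` of `b` over `k` and a constant `ε` such that
`ε A` is a norm from `K(√(a² - 4 b))` (`Pool.Agent.R939.EI.Quat`, `Pool.Agent.R939.EI.Step`): the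
quaternion algebra `(ε A, a² - 4 b)` over `k(t)` splits. This is the condition which sees the
arithmetic of the field of constants: for example `ε A` is a square modulo all the prime divisors of
`a² - 4 b` of odd multiplicity. Only for these `A`, and for the corresponding divisors of `a² - 4 b`,
points in `E(K)` and `E'(K)` are needed. In the starting result `TwoTorsionSection` and the results
before it, points are needed for all the divisors of `b` and `a² - 4 b` over `k`, that is, essentially
one point for every reducible fibre.
-/

namespace Pool.Agent.Results.MP_89bcae_ag.DescentOverConstants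

open Polynomial Pool.Agent.TH115.GD Pool.Agent.R939.EI

theorem result {k k' K F : Type} [Field k] [Field k'] [Algebra k k'] [Field K] [Algebra k[X] K]
    [Field F] [Algebra k'[X] F] [IsFractionRing k'[X] F] [Algebra K F] (hT : IsTower k k' K F)
    (h2 : (2 : k) ≠ 0) {a b : k[X]} (hb : b ≠ 0) (hd : a ^ 2 - 4 * b ≠ 0)
    (hsep : ∀ π : k[X], Irreducible π → π ∣ b * (a ^ 2 - 4 * b) → π.Separable)
    (hNb : NotNorm b) (hNd : NotNorm (a ^ 2 - 4 * b))
    (hpA : PointsForNorms K F a b) (hpB : PointsForNorms K F (-2 * a) (a ^ 2 - 4 * b)) :
    TateAtTwo (F := F) k' (crvT (algebraMap k[X] K a) (algebraMap k[X] K b)) :=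
  criterion hT h2 hb hd hsep hNb hNd hpA hpB

end Pool.Agent.Results.MP_89bcae_ag.DescentOverConstants
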