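import Mathlib
import Pool.Agent.R932.OP.IrrB
import Pool.Agent.Y884.ZI.Open

/-!
# From one prime to 100 percent of the primes: `Br(X̄)[ℓ]` is irreducible over all fields of bounded degree

Let `k` be a field which is finitely generated over `ℚ`, `X` a smooth projective surface over `k`,
`T_ℓ` the transcendental part of `H^2(X̄, ℤ_ℓ(1))` (the orthogonal complement of `NS(X̄)`) and `N` its
rank, which does not depend on `ℓ`. The Galois group `G = Gal(k̄/k)` acts on `T_ℓ` and preserves the
intersection form, which is unimodular for almost all `ℓ`, and for almost all `ℓ` we have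
`Br(X̄)[ℓ] = T_ℓ / ℓ` and `T_ℓ ⊗ ℚ_ℓ = V_ℓ Br(X̄)` as representations of `G`. Let `K` be a number field and
`s : G_K → G` the homomorphism given by a closed point of the generic fibre of a model of `X` (if `k` is
a number field, then `K = k` and `s` is the identity). At the places `v` of `K` of good reduction
(`v ∉ S`) the characteristic polynomial `P_v` of the geometric Frobenius on `T_ℓ` has rational
coefficients and does not depend on `ℓ` (Deligne). Let `N` be odd and at least `5`.

**Theorem.** Suppose that for ONE prime number `ℓ₀` which does not divide `N - 1` the image of `G_K` on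
`T_{ℓ₀}` contains an open subgroup of the orthogonal group. (For a given surface over a number field and a
given `ℓ₀` this can be checked by a finite computation.) Then for every `d`, for all prime numbers `ℓ`
outside a set of natural density zero,
(a) the image of `G_K` on `T_ℓ` contains an open subgroup of the orthogonal group, so `V_ℓ Br(X̄)` is
absolutely irreducible over every finite extension of `k` and the Tate conjecture for divisors on `X` holds
at `ℓ` over all finite extensions of `k`;
(b) `T_ℓ / ℓ = Br(X̄)[ℓ]` is an irreducible representation of `Gal(k̄/k')` for all extensions `k'` of `k`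
of degree at most `d`; in particular `Br(X̄)[ℓ]^{G_{k'}} = 0`, and all invariants of `G_{k'}` in
`H^2(X̄, μ_ℓ)` come from `NS(X̄) ⊗ 𝔽_ℓ`.

The known result `BrauerTorsionDensityOne` of the same problem has the weaker conclusion that `T_ℓ / ℓ` has
no fixed subquotients, and it assumes in addition the existence of places with special Frobenius
polynomials, which is proved here.

Idea of the proof. From the open image at `ℓ₀` one finds (Chebotarev, p-adic approximation) places `v`
with roots of `P_v` in special positions over `ℚ_{ℓ₀}`: a place with `P_v = (X - 1) Q_v`, `x y ≠ z` for all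
roots of `Q_v`, and a place with a full cycle on the roots of `Q_v`. By the zero-one laws over `ℚ_ℓ` and modulo
`ℓ` there are no fixed subquotients at 100 percent of the primes, since there are none at `ℓ₀`. One gets
infinitely many primes with open image, and then (local types at four of these primes) places `v` for
which the Galois group of `Q_v` is the full Weyl group of type `B` over any given number field. By
Chebotarev's theorem for `ℓ`, for 100 percent of the `ℓ` a Frobenius element at `ℓ` has only one orbit on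
the roots of `Q_v` for such a place `v`. A subspace of `T_ℓ / ℓ` which is stable under a subgroup of index at
most `d` is stable under the Frobenius element at `v` if `ℓ` is large (its `d!`-th power has different
eigenvalues), so it gives a factor of `P_v` modulo `ℓ`; only dimensions `0`, `1`, `N - 1`, `N` remain, and
lines are excluded by the zero-one law and the discriminant.

The global argument over `ℚ_ℓ` is the one of the starting files (project ZI of helper142, most of its
tasks were proved there); the other tasks were proved in this run by helper393 (permutation groups),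
helper757 (unramified extensions), helper810 (clusters of roots, full cycles), helper62 (other local
types), helper329 (generic type), helper499 and helper539 (elements of the orthogonal Lie algebra) and
helper557 (no Tate subquotients for open images, Cayley transforms).
-/

set_option autoImplicit false

namespace Pool.Agent.Results.MP_89bcae_ag.IrreducibleBrauerFromOnePrime

open Matrix Polynomial Filter Topology NumberField IsDedekindDomain

/-- the absolute Galois group of `K`, with its profinite (Krull) topology -/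
abbrev AbsoluteGaloisGroup (K : Type) [Field K] : Type := Gal(AlgebraicClosure K/K)

/-- `σ` is an (arithmetic) Frobenius element at the prime `v` of the number field `K`: for some prime
`Q` of the algebraic closure above `v` it acts on the residue field as `x ↦ x ^ N(v)` -/
def IsFrobenius {K : Type} [Field K] [NumberField K] (v : HeightOneSpectrum (𝓞 K))
    (σ : AbsoluteGaloisGroup K) : Prop :=
  ∃ Q : Ideal (𝓞 (AlgebraicClosure K)), Q.IsMaximal ∧
    Q.comap (algebraMap (𝓞 K) (𝓞 (AlgebraicClosure K))) = v.asIdeal ∧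
    ∀ x : 𝓞 (AlgebraicClosure K), σ • x - x ^ Ideal.absNorm v.asIdeal ∈ Q

/-- `β` is a representation of the group `G` on the lattice `ℤ_ℓ ^ N` which preserves the
nondegenerate symmetric form with the matrix `B`, it is continuous on `G_K` (along `s`), and for all
`v ∉ S` which are prime to `ℓ` the characteristic polynomial of (the image under `s` of) the geometric
Frobenius elements `σ⁻¹` (`σ` arithmetic) at `v` is `P v` -/
def IsLatticeSystem (K : Type) [Field K] [NumberField K] {G : Type} [Group G]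
    (s : AbsoluteGaloisGroup K →* G) (N : ℕ)
    (S : Set (HeightOneSpectrum (𝓞 K))) (P : HeightOneSpectrum (𝓞 K) → ℚ[X]) (ℓ : ℕ)
    [Fact ℓ.Prime] (β : G →* Matrix (Fin N) (Fin N) ℤ_[ℓ]) (B : Matrix (Fin N) (Fin N) ℤ_[ℓ]) :
    Prop :=
  Continuous (fun σ : AbsoluteGaloisGroup K => β (s σ)) ∧ Bᵀ = B ∧ B.det ≠ 0 ∧
    (∀ g, (β g)ᵀ * B * β g = B) ∧
    ∀ v ∉ S, (ℓ : 𝓞 K) ∉ v.asIdeal → ∀ σ : AbsoluteGaloisGroup K, IsFrobenius v σ →
      (β (s σ⁻¹)).charpoly.map (algebraMap ℤ_[ℓ] ℚ_[ℓ]) = (P v).map (algebraMap ℚ ℚ_[ℓ])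

/-- the image of `G_K` (along `s`) contains an open subgroup of the orthogonal group: all isometries of `B`
which are congruent to `1` modulo a suitable power of `ℓ` -/
def HasOpenImage {K : Type} [Field K] {G : Type} [Group G] (s : AbsoluteGaloisGroup K →* G) {N : ℕ}
    (ℓ : ℕ) [Fact ℓ.Prime] (β : G →* Matrix (Fin N) (Fin N) ℤ_[ℓ])
    (B : Matrix (Fin N) (Fin N) ℤ_[ℓ]) : Prop :=
  ∃ m : ℕ, ∀ A : Matrix (Fin N) (Fin N) ℤ_[ℓ], Aᵀ * B * A = B →
    (∀ i j, (ℓ : ℤ_[ℓ]) ^ m ∣ (A - 1) i j) → ∃ σ : AbsoluteGaloisGroup K, β (s σ) = A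

/-- **irreducibility modulo `ℓ` over all fields of degree at most `d`**: only the subspaces `0` and
`𝔽_ℓ ^ N` of `𝔽_ℓ ^ N` are stable under a subgroup `U` of `G` of (finite) index at most `d` -/
def IsIrreducibleMod {G : Type} [Group G] {N : ℕ} (ℓ d : ℕ) [Fact ℓ.Prime]
    (β : G →* Matrix (Fin N) (Fin N) ℤ_[ℓ]) : Prop :=
  ∀ (U : Subgroup G) (W : Submodule (ZMod ℓ) (Fin N → ZMod ℓ)), U.index ≠ 0 → U.index ≤ d →
    (∀ σ ∈ U, ∀ w ∈ W, (β σ).map (PadicInt.toZMod : ℤ_[ℓ] →+* ZMod ℓ) *ᵥ w ∈ W) → W = ⊥ ∨ W = ⊤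

/-- the set `A` of prime numbers has natural density zero -/
def HasDensityZero (A : Set ℕ) : Prop :=
  Tendsto (fun n : ℕ => (Nat.card {ℓ : ℕ // ℓ ≤ n ∧ ℓ ∈ A} : ℝ) / (Nat.primeCounting n : ℝ))
    atTop (𝓝 0)

/-- **Open image at one prime implies open image and irreducibility of `Br(X̄)[ℓ]` over the extensions of
degree at most `d`, for 100 percent of the primes `ℓ`.** -/
theorem result (K : Type) [Field K] [NumberField K] (G : Type) [Group G]
    (s : AbsoluteGaloisGroup K →* G) (N : ℕ) (hN : Odd N) (hN5 : 5 ≤ N)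
    (S : Set (HeightOneSpectrum (𝓞 K))) (hS : S.Finite) (P : HeightOneSpectrum (𝓞 K) → ℚ[X])
    (β : ∀ (ℓ : ℕ) [Fact ℓ.Prime], G →* Matrix (Fin N) (Fin N) ℤ_[ℓ])
    (B : ∀ (ℓ : ℕ) [Fact ℓ.Prime], Matrix (Fin N) (Fin N) ℤ_[ℓ])
    (hβ : ∀ (ℓ : ℕ) [Fact ℓ.Prime], IsLatticeSystem K s N S P ℓ (β ℓ) (B ℓ))
    (hB : ∃ b : ℕ, ∀ (ℓ : ℕ) [Fact ℓ.Prime], b < ℓ → IsUnit (B ℓ).det)
    (ℓ₀ : ℕ) [Fact ℓ₀.Prime] (hdvd : ¬ ℓ₀ ∣ N - 1) (hopen : HasOpenImage s ℓ₀ (β ℓ₀) (B ℓ₀)) (d : ℕ) :
    HasDensityZero {ℓ | ∃ _ : Fact ℓ.Prime,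
      ¬ (HasOpenImage s ℓ (β ℓ) (B ℓ) ∧ IsIrreducibleMod ℓ d (β ℓ))} := by
  have hsys : ∀ (ℓ : ℕ) [Fact ℓ.Prime],
      Pool.Agent.R932.IntegralSys K N ℓ s (β ℓ) (B ℓ) S P := hβ
  have horth : ∀ (ℓ : ℕ) [Fact ℓ.Prime], Y142.ZO.Orthogonal K N ℓ
      (Pool.Agent.R932.genRep ℓ ((β ℓ).comp s)) (Pool.Agent.R932.genM ℓ (B ℓ)) S P :=
    fun ℓ _ => Pool.Agent.R932.orthogonal_of (hsys ℓ)
  have hfull : Y142.ZI.FullLie ℓ₀ (R932.genRep ℓ₀ ((β ℓ₀).comp s)) (R932.genM ℓ₀ (B ℓ₀)) :=
    R932.OP.full_of_openZ (hβ ℓ₀).2.1 (hβ ℓ₀).2.2.1 hopen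
  refine Y142.ZI.DensityZero.mono ((R932.OP.irr_one hN hN5 hS β B hsys hB ℓ₀ hdvd hfull d).union
    (R932.OP.orth_one hN (by omega) hS (fun ℓ _ => R932.genRep ℓ ((β ℓ).comp s))
      (fun ℓ _ => R932.genM ℓ (B ℓ)) horth ℓ₀ hdvd hfull)) ?_
  rintro ℓ ⟨hp, hno⟩
  by_contra hnot
  rw [Set.mem_union, not_or] at hnot
  apply hno
  refine ⟨?_, ?_⟩
  · have hF : Y142.ZI.FullLie ℓ (R932.genRep ℓ ((β ℓ).comp s)) (R932.genM ℓ (B ℓ)) := by
      by_contra h
      exact hnot.2 ⟨hp, h⟩
    obtain ⟨ε, hε, h⟩ := Y884.ZI.t ℓ N _ (R932.genRep ℓ ((β ℓ).comp s)) (horth ℓ).1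
      (R932.genM ℓ (B ℓ)) (horth ℓ).2.1 (horth ℓ).2.2.1 (horth ℓ).2.2.2.1 hF
    exact R932.OP.openZ_of_open hε h
  · by_contra h
    exact hnot.1 ⟨hp, h⟩

end Pool.Agent.Results.MP_89bcae_ag.IrreducibleBrauerFromOnePrime
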